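import Pool.Agent.H.MP_234613_al.Maps

set_option autoImplicit false

namespace Pool.Agent.H.MP_234613_al

open PowerSeries

variable {k : Type} [Field k] {B : Subring k} {σ : k →+* k}

theorem bounded (hB : Frac B) [Countable B] {G : SS B →+ SS B} (hG : PL G) :
    ∃ b ∈ B, b ≠ 0 ∧ ∀ a ∈ B, b * coeff 0 (G ⟨C a, C_mem_SS hB a⟩ : k⟦X⟧) ∈ B := by
  by_contra hcon
  push Not at hcon
  let c : k → SS B := fun a => ⟨C a, C_mem_SS hB a⟩
  have hc0 : c 0 = 0 := Subtype.ext (by simp [c])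
  obtain ⟨e, he⟩ := exists_surjective_nat B
  have step : ∀ (n : ℕ) (P : k⟦X⟧), ∃ a ∈ B, (e n : k) ≠ 0 →
      (e n : k) ^ (n + 1) * (coeff n P + coeff 0 (G (c a) : k⟦X⟧)) ∉ B := by
    intro n P
    by_cases h0 : (e n : k) = 0
    · exact ⟨0, zero_mem B, fun h => absurd h0 h⟩
    by_cases h1 : (e n : k) ^ (n + 1) * coeff n P ∈ B
    · obtain ⟨a, ha, h2⟩ := hcon _ (pow_mem (e n).2 (n + 1)) (pow_ne_zero _ h0)
      refine ⟨a, ha, fun _ h3 => h2 ?_⟩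
      rw [mul_add] at h3
      exact (add_mem_cancel_left h1).1 h3
    · refine ⟨0, zero_mem B, fun _ => ?_⟩
      simpa [hc0] using h1
  choose A hA hA' using step
  let P : ℕ → k⟦X⟧ := fun n => Nat.rec 0 (fun n P => P + X ^ n * (G (c (A n P)) : k⟦X⟧)) n
  have hP : ∀ n, P (n + 1) = P n + X ^ n * (G (c (A n (P n))) : k⟦X⟧) := fun n => rfl
  let a : ℕ → k := fun n => A n (P n)
  let z : ℕ → k⟦X⟧ := fun n => mk fun i => if i % 2 = 0 then a (n + i / 2) else 0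
  have hz : ∀ n, z n ∈ SS B := fun n => mem_SS_of_coeff fun i => by
    rw [coeff_mk]
    split_ifs
    exacts [hA _ _, zero_mem B]
  let x : SS B := ⟨X, X_mem_SS⟩
  have hz' : ∀ n, (⟨z n, hz n⟩ : SS B) = c (a n) + x ^ 2 * ⟨z (n + 1), hz (n + 1)⟩ := by
    intro n
    apply Subtype.ext
    change z n = C (a n) + X ^ 2 * z (n + 1)
    ext i
    rw [map_add, coeff_C, coeff_X_pow_mul', coeff_mk, coeff_mk]
    rcases i with _ | _ | i
    · simp
    · simp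
    · have e1 : (i + 1 + 1) % 2 = i % 2 := by omega
      have e2 : n + (i + 1 + 1) / 2 = n + 1 + i / 2 := by omega
      simp [e1, e2]
  have hG' : ∀ n, (G ⟨z 0, hz 0⟩ : k⟦X⟧) = P n + X ^ n * (G ⟨z n, hz n⟩ : k⟦X⟧) := by
    intro n
    induction n with
    | zero => simp [P]
    | succ n ih =>
      rw [ih, hP, hz' n, map_add, hG]
      change P n + X ^ n * ((G (c (a n)) : k⟦X⟧) + X * (G ⟨z (n + 1), hz (n + 1)⟩ : k⟦X⟧)) = _
      ring
  obtain ⟨b, hb, hb0, hbd⟩ := (G ⟨z 0, hz 0⟩).2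
  obtain ⟨n, hn⟩ := he ⟨b, hb⟩
  have h1 := hA' n (P n) (by rw [hn]; exact hb0)
  apply h1
  have h2 := hbd n
  rw [hG' (n + 1), hP, map_add, map_add, coeff_X_pow_mul', coeff_X_pow_mul'] at h2
  rw [hn]
  simpa using h2

theorem not_split (hB : Frac B) [Countable B] {θ : k} (hθ : σ θ ≠ θ) (hq : Quad σ (θ ^ 2))
    (hob : ∀ f : k →+ k, PL f → f 1 = 1 → (∀ a, σ (f a) = f (σ a)) →
      ∀ b ∈ B, b ≠ 0 → ¬ ∀ a ∈ B, b * f a ∈ B) :
    ¬ ∃ ψ : RR B σ →+ RR B σ, PL ψ ∧ ψ 1 = 1 := by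
  rintro ⟨ψ, hψ, h1⟩
  obtain ⟨G, hG, hGψ⟩ := extend_S hB hθ hψ
  obtain ⟨b, hb, hb0, hbd⟩ := bounded hB hG
  let c : k →+* SS B := (C : k →+* k⟦X⟧).codRestrict (SS B) (C_mem_SS hB)
  let f : k →+ k := AddMonoidHom.mk' (fun a => coeff 0 (G (c a) : k⟦X⟧)) (fun x y => by simp)
  have hf : PL f := by
    intro r s
    change coeff 0 (G (c (r ^ 2 * s)) : k⟦X⟧) = r * coeff 0 (G (c s) : k⟦X⟧)
    rw [map_mul, map_pow, hG]
    exact coeff_C_mul _ _ _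
  have hfix : ∀ a, σ a = a → σ (f a) = f a := by
    intro a ha
    have h2 := hGψ ⟨C a, C_mem_RR hB ha⟩
    have h3 : f a = constantCoeff (ψ ⟨C a, C_mem_RR hB ha⟩ : k⟦X⟧) := by
      rw [← h2, ← coeff_zero_eq_constantCoeff_apply]
      rfl
    rw [h3]
    exact (ψ _).2.2
  refine hob f hf ?_ ?_ b hb hb0 hbd
  · have h2 := hGψ 1
    rw [h1] at h2
    change coeff 0 (G (c 1) : k⟦X⟧) = 1
    rw [map_one]
    have h3 : (G 1 : k⟦X⟧) = 1 := h2
    rw [h3]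
    simp
  · intro a
    obtain ⟨u, v, hu, hv, rfl⟩ := hq a
    rw [map_add, map_add, map_add, map_add, map_mul σ, map_pow σ, hu, hv, mul_comm v, mul_comm v,
      hf, hf, map_mul, hfix u hu, hfix v hv]

end Pool.Agent.H.MP_234613_al
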