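import Pool.Agent.H.MP_234613_al.Ext

set_option autoImplicit false

namespace Pool.Agent.H.MP_234613_al

open AddMonoidAlgebra

abbrev La : Type := AddMonoidAlgebra (ZMod 2) (ℕ →₀ ℤ)
abbrev Tp : Type := AddMonoidAlgebra (ZMod 2) (ℕ →₀ ℕ)

noncomputable def cs : (ℕ →₀ ℕ) →+ (ℕ →₀ ℤ) := Finsupp.mapRange.addMonoidHom (Nat.castAddMonoidHom ℤ)

theorem cs_apply (a : ℕ →₀ ℕ) (i : ℕ) : cs a i = (a i : ℤ) := rfl

theorem cs_inj : Function.Injective cs := fun a b h => by
  ext i
  have := congrArg (fun f => f i) h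
  simpa [cs_apply] using this

noncomputable def io : Tp →+* La := mapDomainRingHom (ZMod 2) cs

theorem io_single (a : ℕ →₀ ℕ) (c : ZMod 2) : io (single a c) = single (cs a) c := by
  simp [io]

theorem io_inj : Function.Injective io := mapDomain_injective cs_inj

noncomputable def sg : La ≃+* La := (domCongr (ZMod 2) (ZMod 2) (AddEquiv.neg (ℕ →₀ ℤ))).toRingEquiv

theorem sg_single (a : ℕ →₀ ℤ) (c : ZMod 2) : sg (single a c) = single (-a) c :=
  domCongr_single (R := ZMod 2) (AddEquiv.neg (ℕ →₀ ℤ)) a c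

theorem sg_sg (x : La) : sg (sg x) = x := by
  induction x using induction_linear with
  | zero => simp
  | add x y hx hy => rw [map_add, map_add, hx, hy]
  | single a c => rw [sg_single, sg_single, neg_neg]

noncomputable def ev (j : ℕ) (c : ZMod 2) : Tp →ₐ[ZMod 2] Tp :=
  lift (ZMod 2) Tp (ℕ →₀ ℕ)
    { toFun := fun a => single (a.toAdd.erase j) (c ^ (a.toAdd j))
      map_one' := by simp [one_def]
      map_mul' := fun a b => by simp [single_mul_single, pow_add] }

theorem ev_single (j : ℕ) (c : ZMod 2) (a : ℕ →₀ ℕ) (e : ZMod 2) :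
    ev j c (single a e) = single (a.erase j) (e * c ^ a j) := by
  simp [ev, lift_single]

noncomputable def sv (j : ℕ) : Tp := single (Finsupp.single j 1) 1

theorem ev_sv (j : ℕ) (c : ZMod 2) : ev j c (sv j) = algebraMap (ZMod 2) Tp c := by
  simp [sv, ev_single]
  rfl

theorem ev_sv0 (j : ℕ) : ev j 0 (sv j) = 0 := by rw [ev_sv, map_zero]

theorem ev_sv1 (j : ℕ) : ev j 1 (sv j) = 1 := by rw [ev_sv, map_one]

theorem ev_sv_ne {j i : ℕ} (h : i ≠ j) (c : ZMod 2) : ev j c (sv i) = sv i := by
  simp [sv, ev_single, h.symm]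

theorem ev_far (g : Tp) : ∃ N, ∀ j, N ≤ j → ∀ c, ev j c g = g := by
  induction g using induction_linear with
  | zero => exact ⟨0, fun _ _ _ => map_zero _⟩
  | add x y hx hy =>
    obtain ⟨N, hN⟩ := hx
    obtain ⟨N', hN'⟩ := hy
    exact ⟨max N N', fun j hj c => by
      rw [map_add, hN j (le_of_max_le_left hj), hN' j (le_of_max_le_right hj)]⟩
  | single a e =>
    obtain ⟨N, hN⟩ := a.support.bddAbove
    refine ⟨N + 1, fun j hj c => ?_⟩
    have h0 : a j = 0 := by
      by_contra h
      have := hN (Finsupp.mem_support_iff.2 h)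
      omega
    rw [ev_single, h0, Finsupp.erase_of_notMem_support (by simpa using h0)]
    simp

theorem ev_zero_split (j : ℕ) (g : Tp) : ∃ g', g = ev j 0 g + sv j * g' := by
  induction g using induction_linear with
  | zero => exact ⟨0, by simp⟩
  | add x y hx hy =>
    obtain ⟨a, ha⟩ := hx
    obtain ⟨b, hb⟩ := hy
    exact ⟨a + b, by rw [map_add]; linear_combination ha + hb⟩
  | single a e =>
    by_cases h0 : a j = 0
    · refine ⟨0, ?_⟩
      rw [ev_single, h0, Finsupp.erase_of_notMem_support (by simpa using h0)]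
      simp
    · refine ⟨single (a - Finsupp.single j 1) e, ?_⟩
      rw [ev_single, zero_pow h0, sv, single_mul_single]
      have : Finsupp.single j 1 + (a - Finsupp.single j 1) = a :=
        add_tsub_cancel_of_le (Finsupp.single_le_iff.2 (by omega))
      simp [this]

noncomputable def BT : Subring Tp := ⨅ j : ℕ, RingHom.eqLocus (ev j 0).toRingHom (ev j 1).toRingHom

theorem mem_BT {g : Tp} : g ∈ BT ↔ ∀ j, ev j 0 g = ev j 1 g := by
  simp [BT, Subring.mem_iInf]

theorem two_Tp : (1 + 1 : Tp) = 0 := by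
  have : CharP Tp 2 := charP_of_injective_algebraMap (algebraMap (ZMod 2) _).injective 2
  exact CharTwo.add_self_eq_zero 1

theorem node_mem (j : ℕ) (g : Tp) (h : ∀ i, i ≠ j → ev i 0 g = ev i 1 g) :
    sv j * (sv j + 1) * g ∈ BT := by
  rw [mem_BT]
  intro i
  by_cases hi : i = j
  · subst hi
    simp [ev_sv0, ev_sv1, two_Tp]
  · simp [ev_sv_ne (Ne.symm hi), h i hi]

theorem sv_ne (j : ℕ) : sv j * (sv j + 1) ≠ 0 := by
  refine mul_ne_zero (fun h => ?_) (fun h => ?_)
  · have := ev_sv1 j
    rw [h, map_zero] at this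
    exact zero_ne_one this
  · have := congrArg (ev j 0) h
    simp [ev_sv0] at this

theorem exists_den (g g' : Tp) : ∃ d : Tp, d ≠ 0 ∧ d * g ∈ BT ∧ d * g' ∈ BT := by
  obtain ⟨N, hN⟩ := ev_far g
  obtain ⟨N', hN'⟩ := ev_far g'
  let d : Tp := ∏ j ∈ Finset.range (max N N'), sv j * (sv j + 1)
  have key : ∀ x : Tp, (∀ j, max N N' ≤ j → ∀ c, ev j c x = x) → d * x ∈ BT := by
    intro x hx
    rw [mem_BT]
    intro j
    by_cases hj : j < max N N'
    · obtain ⟨d', hd'⟩ : sv j * (sv j + 1) ∣ d :=
        Finset.dvd_prod_of_mem _ (Finset.mem_range.2 hj)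
      simp [hd', ev_sv0, ev_sv1, two_Tp]
    · have hd : ∀ c, ev j c d = d := by
        intro c
        simp only [d, map_prod]
        refine Finset.prod_congr rfl fun i hi => ?_
        have : i ≠ j := by
          have := Finset.mem_range.1 hi
          omega
        simp [ev_sv_ne this]
      rw [map_mul, map_mul, hd, hd, hx j (by omega), hx j (by omega)]
  exact ⟨d, Finset.prod_ne_zero_iff.2 fun j _ => sv_ne j,
    key g fun j hj => hN j (le_of_max_le_left hj), key g' fun j hj => hN' j (le_of_max_le_right hj)⟩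

theorem exists_mono (x : La) : ∃ (a : ℕ →₀ ℕ) (g : Tp), io (single a 1) * x = io g := by
  induction x using induction_linear with
  | zero => exact ⟨0, 0, by simp⟩
  | add x y hx hy =>
    obtain ⟨a, g, ha⟩ := hx
    obtain ⟨b, h, hb⟩ := hy
    refine ⟨a + b, single b 1 * g + single a 1 * h, ?_⟩
    have : (single (a + b) 1 : Tp) = single a 1 * single b 1 := by simp [single_mul_single]
    rw [this, map_mul, map_add, map_mul, map_mul, ← ha, ← hb]
    ring
  | single a e =>
    refine ⟨a.mapRange (fun z => (-z).toNat) (by simp),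
      single (a.mapRange Int.toNat (by simp)) e, ?_⟩
    rw [io_single, io_single, single_mul_single, one_mul]
    congr 1
    ext i
    simp only [Finsupp.add_apply, cs_apply, Finsupp.mapRange_apply]
    omega

def Deg (j : ℕ) (P : ℤ → Prop) (g : La) : Prop := ∀ a, g.coeff a ≠ 0 → P (a j)

theorem Deg.add {j : ℕ} {P : ℤ → Prop} {x y : La} (hx : Deg j P x) (hy : Deg j P y) :
    Deg j P (x + y) := by
  intro a ha
  by_cases h : x.coeff a = 0
  · apply hy
    simpa [h] using ha
  · exact hx a h

theorem Deg.sing {j : ℕ} {P : ℤ → Prop} {a : ℕ →₀ ℤ} (h : P (a j)) (c : ZMod 2) :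
    Deg j P (single a c) := by
  intro b hb
  rw [coeff_single] at hb
  obtain rfl : b = a := by
    by_contra hne
    exact hb (Finsupp.single_eq_of_ne hne)
  exact h

theorem Deg.mul {j : ℕ} {P Q S : ℤ → Prop} {x y : La} (hx : Deg j P x) (hy : Deg j Q y)
    (h : ∀ a b, P a → Q b → S (a + b)) : Deg j S (x * y) := by
  classical
  intro a ha
  have := support_coeff_mul_subset x y (Finsupp.mem_support_iff.2 ha)
  obtain ⟨b, hb, c, hc, rfl⟩ := Finset.mem_add.1 this
  exact h _ _ (hx b (Finsupp.mem_support_iff.1 hb)) (hy c (Finsupp.mem_support_iff.1 hc))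

theorem deg_of (j : ℕ) (P : ℤ → Prop) (F : Tp →+* La)
    (h : ∀ a c, Deg j P (F (single a c))) (g : Tp) : Deg j P (F g) := by
  induction g using induction_linear with
  | zero => intro a ha; simp at ha
  | add x y hx hy => rw [map_add]; exact hx.add hy
  | single a e => exact h a e

theorem final (j : ℕ) (β v : Tp) (hβ : ev j 0 β = β) (hβ0 : β ≠ 0)
    (h : sg (io β) * (io (sv j) * io v) = sg (io v) * io β) : v = 0 := by
  have h1 : Deg j (0 ≤ ·) (io v) := deg_of j _ io (fun a c => by
    rw [io_single]; exact Deg.sing (by simp [cs_apply]) c) v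
  have h2 : Deg j (· ≤ 0) (sg (io v)) := deg_of j _ (sg.toRingHom.comp io) (fun a c => by
    change Deg j _ (sg (io _))
    rw [io_single, sg_single]; exact Deg.sing (by simp [cs_apply]) c) v
  have h3 : Deg j (· ≤ 0) (io (ev j 0 β)) := deg_of j _ (io.comp (ev j 0).toRingHom) (fun a c => by
    change Deg j _ (io (ev j 0 _))
    rw [ev_single, io_single]; exact Deg.sing (by simp [cs_apply]) _) β
  have h4 : Deg j (0 ≤ ·) (sg (io (ev j 0 β))) :=
    deg_of j _ (sg.toRingHom.comp (io.comp (ev j 0).toRingHom)) (fun a c => by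
    change Deg j _ (sg (io (ev j 0 _)))
    rw [ev_single, io_single, sg_single]; exact Deg.sing (by simp [cs_apply]) _) β
  rw [hβ] at h3 h4
  have h5 : Deg j (1 ≤ ·) (io (sv j)) := by
    rw [sv, io_single]; exact Deg.sing (by simp [cs_apply]) _
  have h6 : Deg j (1 ≤ ·) (sg (io β) * (io (sv j) * io v)) :=
    h4.mul (h5.mul h1 (S := (1 ≤ ·)) (fun a b ha hb => by omega)) (fun a b ha hb => by omega)
  have h7 : Deg j (· ≤ 0) (sg (io v) * io β) := h2.mul h3 (fun a b ha hb => by omega)
  have h8 : sg (io v) * io β = 0 := by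
    ext a
    by_contra hne
    have e1 := h6 a (by rw [h]; exact hne)
    have e2 := h7 a hne
    omega
  rcases mul_eq_zero.1 h8 with h9 | h9
  · exact io_inj (by simpa using h9)
  · exact absurd (io_inj (by simpa using h9)) hβ0

end Pool.Agent.H.MP_234613_al
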