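import Pool.Agent.H.MP_234613_al.Bound

set_option autoImplicit false

namespace Pool.Agent.H.MP_234613_al

theorem ext_frac {A : Type} [CommRing A] [IsDomain A] (K : Type) [Field K] [Algebra A K]
    [IsFractionRing A K] {f : A →+ A} (hf : PL f) :
    ∃ g : K →+ K, PL g ∧ ∀ a, g (algebraMap A K a) = algebraMap A K (f a) := by
  choose n d hd h using fun x : K => IsFractionRing.div_surjective (A := A) x
  have hd' : ∀ x, algebraMap A K (d x) ≠ 0 := fun x =>
    IsFractionRing.to_map_ne_zero_of_mem_nonZeroDivisors (hd x)
  have hx : ∀ x : K, x * algebraMap A K (d x) = algebraMap A K (n x) := fun x =>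
    ((div_eq_iff (hd' x)).1 (h x)).symm
  have hm := map_mul (algebraMap A K)
  let g : K → K := fun x => algebraMap A K (f (n x * d x)) / algebraMap A K (d x)
  have key : ∀ (x : K) (a b : A), x * algebraMap A K b = algebraMap A K a →
      g x * algebraMap A K b = algebraMap A K (f (a * b)) := by
    intro x a b hxa
    have h1 : n x * b = a * d x := by
      apply IsFractionRing.injective A K
      rw [hm, hm, ← hxa, ← hx x]
      ring
    have h2 : b * f (n x * d x) = d x * f (a * b) := by
      rw [← hf, ← hf]
      congr 1
      linear_combination (b * d x) * h1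
    have h3 := congrArg (algebraMap A K) h2
    rw [hm, hm] at h3
    simp only [g]
    field_simp [hd' x]
    linear_combination h3
  refine ⟨AddMonoidHom.mk' g ?_, ?_, ?_⟩
  · intro x y
    have h1 := key (x + y) (n x * d y + n y * d x) (d x * d y) (by
      rw [map_add, map_mul, map_mul, map_mul, ← hx x, ← hx y]; ring)
    have h2 : f ((n x * d y + n y * d x) * (d x * d y)) =
        d y * f (n x * d x) + d x * f (n y * d y) := by
      rw [← hf, ← hf, ← map_add]
      congr 1
      ring
    rw [h2, map_add, hm, hm, hm, ← key x _ _ (hx x), ← key y _ _ (hx y)] at h1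
    apply mul_right_cancel₀ (mul_ne_zero (hd' x) (hd' y))
    rw [h1]
    ring
  · intro r x
    change g (r ^ 2 * x) = r * g x
    have h1 := key (r ^ 2 * x) (n r ^ 2 * n x) (d r ^ 2 * d x) (by
      rw [map_mul, map_mul, map_pow, map_pow, ← hx x, ← hx r]; ring)
    have h2 : f (n r ^ 2 * n x * (d r ^ 2 * d x)) = n r * d r * f (n x * d x) := by
      rw [← hf]
      congr 1
      ring
    rw [h2, hm, hm, hm, map_pow, ← key x _ _ (hx x), ← hx r] at h1
    apply mul_right_cancel₀ (mul_ne_zero (pow_ne_zero 2 (hd' r)) (hd' x))
    rw [h1]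
    ring
  · intro a
    have := key (algebraMap A K a) a 1 (by simp)
    simpa using this

theorem comm_frac {A : Type} [CommRing A] [IsDomain A] {K : Type} [Field K] [Algebra A K]
    [IsFractionRing A K] {g : K →+ K} (hg : PL g) (σ : K →+* K)
    (h : ∀ a, σ (g (algebraMap A K a)) = g (σ (algebraMap A K a))) (x : K) :
    σ (g x) = g (σ x) := by
  obtain ⟨a, b, hb, rfl⟩ := IsFractionRing.div_surjective (A := A) x
  have hb' : algebraMap A K b ≠ 0 := IsFractionRing.to_map_ne_zero_of_mem_nonZeroDivisors hb
  have e : algebraMap A K a / algebraMap A K b =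
      (algebraMap A K b)⁻¹ ^ 2 * algebraMap A K (a * b) := by
    rw [map_mul]
    field_simp
  rw [e, hg, map_mul σ, map_mul σ, map_pow σ, hg, h]

open AddMonoidAlgebra

noncomputable def lin {M N : Type} [AddCommMonoid N] [Module (ZMod 2) N] (h : M → N) :
    AddMonoidAlgebra (ZMod 2) M →+ N :=
  (Finsupp.linearCombination (ZMod 2) h).toAddMonoidHom.comp coeffAddEquiv.toAddMonoidHom

theorem lin_single {M N : Type} [AddCommMonoid N] [Module (ZMod 2) N] (h : M → N) (a : M)
    (c : ZMod 2) : lin h (single a c) = c • h a := by
  simp [lin]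

theorem lin_PL {M : Type} [AddCommMonoid M] (h : M → AddMonoidAlgebra (ZMod 2) M)
    (hh : ∀ a b, h (b + b + a) = single b 1 * h a) : PL (lin h) := by
  have : CharP (AddMonoidAlgebra (ZMod 2) M) 2 :=
    charP_of_injective_algebraMap (algebraMap (ZMod 2) _).injective 2
  intro r s
  induction r using induction_linear with
  | zero => simp
  | add x y hx hy => rw [CharTwo.add_sq, add_mul, map_add, hx, hy, add_mul]
  | single b c =>
    induction s using induction_linear with
    | zero => simp
    | add x y hx hy => rw [mul_add, map_add, hx, hy, map_add, mul_add]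
    | single a e =>
      have hc : c * c = c := by revert c; decide
      rw [sq, single_mul_single, single_mul_single, lin_single, lin_single, hh, hc,
        ← mul_one c, ← smul_eq_mul c 1, ← smul_single, smul_mul_smul_comm]
      simp

end Pool.Agent.H.MP_234613_al
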