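import Pool.Agent.H.MP_234613_al.Ring

set_option autoImplicit false

namespace Pool.Agent.H.MP_234613_al

open PowerSeries

variable {k : Type} [Field k]

def RR (B : Subring k) (σ : k →+* k) : Subring k⟦X⟧ where
  carrier := {z | z ∈ SS B ∧ σ (constantCoeff z) = constantCoeff z}
  mul_mem' := fun ha hb => ⟨mul_mem ha.1 hb.1, by rw [map_mul, map_mul, ha.2, hb.2]⟩
  one_mem' := ⟨one_mem _, by simp⟩
  add_mem' := fun ha hb => ⟨add_mem ha.1 hb.1, by rw [map_add, map_add, ha.2, hb.2]⟩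
  zero_mem' := ⟨zero_mem _, by simp⟩
  neg_mem' := fun ha => ⟨neg_mem ha.1, by rw [map_neg, map_neg, ha.2]⟩

variable {B : Subring k} {σ : k →+* k}

theorem mem_RR {z : k⟦X⟧} : z ∈ RR B σ ↔ z ∈ SS B ∧ σ (constantCoeff z) = constantCoeff z :=
  Iff.rfl

theorem X_mul_mem {z : k⟦X⟧} (h : z ∈ SS B) : X * z ∈ RR B σ :=
  ⟨mul_mem X_mem_SS h, by simp⟩

theorem C_mem_RR (hB : Frac B) {a : k} (h : σ a = a) : (C a : k⟦X⟧) ∈ RR B σ :=
  ⟨C_mem_SS hB a, by simpa using h⟩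

variable (B σ) in
noncomputable def tt : RR B σ := ⟨X, X_mem_SS, by simp⟩

theorem tt_ne : tt B σ ≠ 0 := fun h => X_ne_zero (congrArg Subtype.val h)

theorem isUnit_iff (hB : Frac B) (z : RR B σ) : IsUnit z ↔ constantCoeff (z : k⟦X⟧) ≠ 0 := by
  constructor
  · intro h
    exact ((h.map (RR B σ).subtype).map constantCoeff).ne_zero
  · intro h
    refine IsUnit.of_mul_eq_one ⟨(z : k⟦X⟧)⁻¹, inv_mem_SS hB z.2.1, ?_⟩ ?_
    · rw [constantCoeff_inv, map_inv₀, z.2.2]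
    · exact Subtype.ext (PowerSeries.mul_inv_cancel _ h)

theorem isLocal (hB : Frac B) : IsLocalRing (RR B σ) := by
  refine IsLocalRing.of_isUnit_or_isUnit_one_sub_self fun a => ?_
  rw [isUnit_iff hB, isUnit_iff hB]
  by_cases h : constantCoeff (a : k⟦X⟧) = 0
  · right
    simp [h]
  · exact Or.inl h

theorem span_tt_ne (hB : Frac B) : Ideal.span {tt B σ} ≠ ⊤ := by
  rw [Ne, Ideal.span_singleton_eq_top, isUnit_iff hB]
  simp [tt]

theorem dvd_of_coeff {z : RR B σ} {n : ℕ} (h : ∀ m < n + 1, coeff m (z : k⟦X⟧) = 0) :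
    tt B σ ^ n ∣ z := by
  obtain ⟨w, hw⟩ := X_pow_dvd_iff.2 h
  have hw' : w ∈ SS B := mem_of_X_pow_mul (n + 1) (hw ▸ z.2.1)
  refine ⟨⟨X * w, X_mul_mem hw'⟩, Subtype.ext ?_⟩
  rw [hw]
  simp [tt, pow_succ, mul_assoc]

theorem exists_pow (hB : Frac B) {z : RR B σ} (hz : z ≠ 0) :
    ∃ n : ℕ, ∀ w ∈ SS B, ∃ r : RR B σ, ((r * z : RR B σ) : k⟦X⟧) = X ^ (n + 1) * w := by
  have hz' : (z : k⟦X⟧) ≠ 0 := fun h => hz (Subtype.ext h)
  let n := (z : k⟦X⟧).order.toNat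
  let u := divXPowOrder (z : k⟦X⟧)
  have h1 : X ^ n * u = (z : k⟦X⟧) := X_pow_order_mul_divXPowOrder
  have hu : u ∈ SS B := mem_of_X_pow_mul n (h1 ▸ z.2.1)
  have hu0 : constantCoeff u ≠ 0 := fun h => hz' (constantCoeff_divXPowOrder_eq_zero_iff.1 h)
  refine ⟨n, fun w hw => ⟨⟨X * (u⁻¹ * w), X_mul_mem (mul_mem (inv_mem_SS hB hu) hw)⟩, ?_⟩⟩
  have h2 := PowerSeries.mul_inv_cancel u hu0
  change X * (u⁻¹ * w) * (z : k⟦X⟧) = _
  rw [← h1]
  calc X * (u⁻¹ * w) * (X ^ n * u) = X ^ (n + 1) * w * (u * u⁻¹) := by ring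
    _ = _ := by rw [h2, mul_one]

theorem dim_one (hB : Frac B) : ringKrullDim (RR B σ) = 1 := by
  have := isLocal (σ := σ) hB
  rw [ringKrullDim_eq_one_iff_of_isLocalRing_isDomain]
  constructor
  · intro h
    obtain ⟨y, hy⟩ := h.mul_inv_cancel tt_ne
    exact span_tt_ne hB (Ideal.span_singleton_eq_top.2 (IsUnit.of_mul_eq_one y hy))
  · intro x hx y hy
    obtain ⟨n, hn⟩ := exists_pow hB hx
    have h0 : constantCoeff (y : k⟦X⟧) = 0 := by
      by_contra h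
      exact hy ((isUnit_iff hB y).2 h)
    have h1 : (y : k⟦X⟧) = X * sh y := by
      conv_lhs => rw [eq_sh (y : k⟦X⟧), coeff_zero_eq_constantCoeff_apply, h0]
      simp
    obtain ⟨r, hr⟩ := hn (sh y ^ (n + 1)) (pow_mem (sh_mem y.2.1) _)
    refine ⟨n + 1, Ideal.mem_span_singleton'.2 ⟨r, Subtype.ext ?_⟩⟩
    rw [hr, ← mul_pow, ← h1]
    rfl

def Quad (σ : k →+* k) (θ : k) : Prop := ∀ a : k, ∃ u v : k, σ u = u ∧ σ v = v ∧ a = u + v * θ

theorem quad_of (hσ : ∀ a, σ (σ a) = a) {θ : k} (hθ : σ θ ≠ θ) : Quad σ θ := by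
  intro a
  have h : σ θ - θ ≠ 0 := sub_ne_zero.2 hθ
  have h' : θ - σ θ ≠ 0 := sub_ne_zero.2 hθ.symm
  have hv : σ ((σ a - a) / (σ θ - θ)) = (σ a - a) / (σ θ - θ) := by
    rw [map_div₀, map_sub, map_sub, hσ, hσ]
    field_simp
    ring
  refine ⟨a - (σ a - a) / (σ θ - θ) * θ, (σ a - a) / (σ θ - θ), ?_, hv, by ring⟩
  rw [map_sub, map_mul, hv]
  field_simp
  ring

theorem noeth (hB : Frac B) {θ : k} (hθ : Quad σ θ) : IsNoetherianRing (RR B σ) := by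
  let K : Subfield k := RingHom.eqLocusField σ (RingHom.id k)
  have hfin : Module.Finite K k := by
    refine ⟨Submodule.fg_def.2 ⟨{1, θ}, Set.toFinite _, ?_⟩⟩
    rw [eq_top_iff]
    intro a _
    obtain ⟨u, v, hu, hv, rfl⟩ := hθ a
    exact Submodule.mem_span_pair.2 ⟨⟨u, hu⟩, ⟨v, hv⟩, by simp [Subfield.smul_def]⟩
  let i : K →+* RR B σ :=
    ((C : k →+* k⟦X⟧).comp K.subtype).codRestrict (RR B σ) (fun a => C_mem_RR hB a.2)
  let : Algebra K (RR B σ) := i.toAlgebra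
  rw [isNoetherianRing_iff_ideal_fg]
  intro I
  by_cases hI : I = ⊥
  · rw [hI]; exact Submodule.fg_bot
  obtain ⟨z, hzI, hz⟩ := Submodule.exists_mem_ne_zero_of_ne_bot hI
  obtain ⟨n, hn⟩ := exists_pow hB hz
  let τ : RR B σ →ₗ[K] (Fin (n + 1) → k) :=
    { toFun := fun x j => coeff j (x : k⟦X⟧)
      map_add' := fun x y => by funext j; simp
      map_smul' := fun a x => by
        funext j
        change coeff j (C (a : k) * (x : k⟦X⟧)) = (a : k) * coeff j (x : k⟦X⟧)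
        simp }
  let J : Ideal (RR B σ) := (Ideal.span {X ^ (n + 1)} : Ideal k⟦X⟧).comap (RR B σ).subtype
  have hJ : ∀ x : RR B σ, x ∈ J ↔ X ^ (n + 1) ∣ (x : k⟦X⟧) := fun x => Ideal.mem_span_singleton
  have hker : LinearMap.ker τ = J.restrictScalars K := by
    ext x
    rw [LinearMap.mem_ker, Submodule.restrictScalars_mem, hJ, X_pow_dvd_iff, funext_iff]
    exact ⟨fun h m hm => h ⟨m, hm⟩, fun h m => h m m.2⟩
  have hN : IsNoetherian K (RR B σ ⧸ J) := by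
    have e := LinearMap.quotKerEquivRange τ
    rw [hker] at e
    exact isNoetherian_of_linearEquiv (e.symm.trans (Submodule.Quotient.restrictScalarsEquiv K J))
  have hN' : IsNoetherian (RR B σ) (RR B σ ⧸ J) := isNoetherian_of_tower K hN
  have hJI : J ≤ I := by
    intro x hx
    obtain ⟨w, hw⟩ := (hJ x).1 hx
    obtain ⟨r, hr⟩ := hn w (mem_of_X_pow_mul (n + 1) (hw ▸ x.2.1))
    have : x = r * z := Subtype.ext (hw.trans hr.symm)
    rw [this]
    exact I.mul_mem_left r hzI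
  have hJfg : J.FG := by
    let g1 : RR B σ := tt B σ ^ (n + 1)
    let g2 : RR B σ := tt B σ ^ n * ⟨X * C θ, X_mul_mem (C_mem_SS hB θ)⟩
    have e1 : (g1 : k⟦X⟧) = X ^ (n + 1) := rfl
    have e2 : (g2 : k⟦X⟧) = X ^ (n + 1) * C θ := by
      change X ^ n * (X * C θ) = _
      ring
    refine Submodule.fg_def.2 ⟨{g1, g2}, Set.toFinite _, le_antisymm ?_ ?_⟩
    · rw [Submodule.span_le]
      rintro x (rfl | rfl)
      · exact (hJ _).2 (e1 ▸ dvd_rfl)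
      · exact (hJ _).2 (e2 ▸ dvd_mul_right _ _)
    · intro x hx
      obtain ⟨w, hw⟩ := (hJ x).1 hx
      have hwS : w ∈ SS B := mem_of_X_pow_mul (n + 1) (hw ▸ x.2.1)
      obtain ⟨u, v, hu, hv, huv⟩ := hθ (coeff 0 w)
      refine Submodule.mem_span_pair.2 ⟨⟨X * sh w + C u, add_mem (X_mul_mem (sh_mem hwS))
        (C_mem_RR hB hu)⟩, ⟨C v, C_mem_RR hB hv⟩, Subtype.ext ?_⟩
      change (X * sh w + C u) * (g1 : k⟦X⟧) + C v * (g2 : k⟦X⟧) = _
      rw [e1, e2, hw]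
      conv_rhs => rw [eq_sh w, huv, map_add, map_mul]
      ring
  refine Submodule.fg_of_fg_map_of_fg_inf_ker J.mkQ (IsNoetherian.noetherian _) ?_
  rw [Submodule.ker_mkQ, inf_eq_right.2 hJI]
  exact hJfg

end Pool.Agent.H.MP_234613_al
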