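import Pool.Agent.H.MP_234613_al.Conc

set_option autoImplicit false

namespace Pool.Agent.H.MP_234613_al

open AddMonoidAlgebra

abbrev Kf : Type := FractionRing La

noncomputable def ph : Tp →+* Kf := (algebraMap La Kf).comp io

theorem ph_inj : Function.Injective ph := (IsFractionRing.injective La Kf).comp io_inj

noncomputable def BB : Subring Kf := BT.map ph

noncomputable def sK : Kf →+* Kf := (IsFractionRing.ringEquivOfRingEquiv (K := Kf) (L := Kf) sg).toRingHom

theorem sK_alg (a : La) : sK (algebraMap La Kf a) = algebraMap La Kf (sg a) :=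
  IsFractionRing.ringEquivOfRingEquiv_algebraMap sg a

theorem sK_sK (x : Kf) : sK (sK x) = x := by
  obtain ⟨a, b, hb, rfl⟩ := IsFractionRing.div_surjective (A := La) x
  rw [map_div₀, map_div₀, sK_alg, sK_alg, sK_alg, sK_alg, sg_sg, sg_sg]

instance charK : CharP Kf 2 := by
  have : CharP La 2 := charP_of_injective_algebraMap (algebraMap (ZMod 2) _).injective 2
  exact charP_of_injective_algebraMap (IsFractionRing.injective La Kf) 2

theorem countBB : Countable BB := by
  have : Countable Tp := coeff_injective.countable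
  exact (Set.to_countable (BT : Set Tp)).image ph

theorem fracBB : Frac BB := by
  intro x
  obtain ⟨a, b, hb, rfl⟩ := IsFractionRing.div_surjective (A := La) x
  have hb' : algebraMap La Kf b ≠ 0 := IsFractionRing.to_map_ne_zero_of_mem_nonZeroDivisors hb
  obtain ⟨m, g, hg⟩ := exists_mono a
  obtain ⟨m', g', hg'⟩ := exists_mono b
  obtain ⟨d, hd, h1, h2⟩ := exists_den (single m' 1 * g) (single m 1 * g')
  have hs : ∀ m : ℕ →₀ ℕ, (single m 1 : Tp) ≠ 0 := fun m => by simp
  have hg0 : g' ≠ 0 := by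
    rintro rfl
    rw [map_zero, mul_eq_zero] at hg'
    rcases hg' with h | h
    · exact hs m' (io_inj (by rw [h, map_zero]))
    · exact nonZeroDivisors.ne_zero hb h
  refine ⟨ph (d * (single m 1 * g')), ⟨_, h2, rfl⟩, ?_, ⟨_, h1, ?_⟩⟩
  · rw [Ne, map_eq_zero_iff ph ph_inj]
    exact mul_ne_zero hd (mul_ne_zero (hs m) hg0)
  · simp only [ph, RingHom.comp_apply, map_mul, ← hg, ← hg']
    field_simp

theorem sK_sv (j : ℕ) : sK (ph (sv j)) * ph (sv j) = 1 := by
  simp only [ph, RingHom.comp_apply, sK_alg, ← map_mul, sv, io_single, sg_single,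
    single_mul_single, neg_add_cancel, mul_one]
  exact map_one _

theorem sK_ne (n : ℕ) (hn : n ≠ 0) : sK (ph (sv 0) ^ n) ≠ ph (sv 0) ^ n := by
  intro h
  have h1 : ph (sv 0) ^ n * ph (sv 0) ^ n = 1 := by
    conv_lhs => rw [← h]
    rw [h]
    conv_lhs => enter [1]; rw [← h]
    rw [map_pow, ← mul_pow, sK_sv, one_pow]
  rw [← map_pow, ← map_mul, ← map_one ph] at h1
  have h2 := congrArg (ev 0 0) (ph_inj h1)
  simp [ev_sv0, hn] at h2

noncomputable def h0 (a : ℕ →₀ ℤ) : La :=
  open Classical in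
  if ∀ i, 2 ∣ a i then single (a.mapRange (· / 2) (by simp)) 1 else 0

theorem h0_PL : PL (lin h0) := by
  refine lin_PL _ fun a b => ?_
  have e : (∀ i, 2 ∣ (b + b + a) i) ↔ ∀ i, 2 ∣ a i := forall_congr' fun i => by
    simp only [Finsupp.add_apply]
    omega
  unfold h0
  rw [e]
  split_ifs with h
  · rw [single_mul_single, one_mul]
    congr 1
    ext i
    simp only [Finsupp.add_apply, Finsupp.mapRange_apply]
    omega
  · simp

theorem h0_sg (x : La) : sg (lin h0 x) = lin h0 (sg x) := by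
  induction x using induction_linear with
  | zero => simp
  | add x y hx hy => rw [map_add, map_add, hx, hy, map_add, map_add]
  | single a c =>
    rw [sg_single, lin_single, lin_single]
    have e : (∀ i, 2 ∣ (-a) i) ↔ ∀ i, 2 ∣ a i := forall_congr' fun i => by simp
    unfold h0
    rw [e]
    split_ifs with h
    · rw [smul_single, smul_single, sg_single]
      congr 1
      ext i
      have := h i
      simp only [Finsupp.neg_apply, Finsupp.mapRange_apply]
      omega
    · simp

theorem exists_f0 : ∃ f : Kf →+ Kf, PL f ∧ (∀ a, sK (f a) = f (sK a)) ∧ f 1 = 1 := by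
  obtain ⟨g, hg, h⟩ := ext_frac Kf h0_PL
  refine ⟨g, hg, comm_frac (A := La) hg sK fun a => by rw [h, sK_alg, sK_alg, h, h0_sg], ?_⟩
  rw [← map_one (algebraMap La Kf), h]
  congr 1
  rw [one_def, lin_single]
  simp [h0]

noncomputable def h1 (a : ℕ →₀ ℤ) : La := single (a.mapRange (fun z => (z + 1) / 2) (by simp)) 1

noncomputable def h2 (a : ℕ →₀ ℕ) : Tp := single (a.mapRange (fun z => (z + 1) / 2) (by simp)) 1

theorem h1_PL : PL (lin h1) := by
  refine lin_PL _ fun a b => ?_
  unfold h1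
  rw [single_mul_single, one_mul]
  congr 1
  ext i
  simp only [Finsupp.add_apply, Finsupp.mapRange_apply]
  omega

theorem h1_io (x : Tp) : lin h1 (io x) = io (lin h2 x) := by
  induction x using induction_linear with
  | zero => simp
  | add x y hx hy => rw [map_add, map_add, hx, hy, map_add, map_add]
  | single a c =>
    rw [io_single, lin_single, lin_single, h1, h2, smul_single, smul_single, io_single]
    congr 1
    ext i
    simp only [Finsupp.mapRange_apply, cs_apply]
    omega

theorem h2_ev (j : ℕ) (c : ZMod 2) (x : Tp) : ev j c (lin h2 x) = lin h2 (ev j c x) := by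
  induction x using induction_linear with
  | zero => simp
  | add x y hx hy => rw [map_add, map_add, hx, hy, map_add, map_add]
  | single a e =>
    rw [ev_single, lin_single, lin_single, h2, h2, smul_single, smul_single, ev_single]
    congr 1
    · ext i
      by_cases hi : i = j
      · subst hi; simp
      · simp [Finsupp.erase_ne hi]
    · have : ∀ c : ZMod 2, c = 0 ∨ c = 1 := by decide
      rcases this c with rfl | rfl
      · simp only [Finsupp.mapRange_apply, smul_eq_mul, mul_one]
        by_cases h : a j = 0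
        · simp [h]
        · rw [zero_pow h, zero_pow (by omega)]
      · simp

theorem exists_f1 : ∃ f : Kf →+ Kf, PL f ∧ (∀ a ∈ BB, f a ∈ BB) ∧ f 1 = 1 := by
  obtain ⟨g, hg, h⟩ := ext_frac Kf h1_PL
  refine ⟨g, hg, ?_, ?_⟩
  · rintro _ ⟨x, hx, rfl⟩
    refine ⟨lin h2 x, mem_BT.2 fun j => ?_, ?_⟩
    · rw [h2_ev, h2_ev, mem_BT.1 hx j]
    · simp only [ph, RingHom.comp_apply]
      rw [h, h1_io]
  · rw [← map_one (algebraMap La Kf), h]
    congr 1
    rw [one_def, lin_single]
    simp [h1]

theorem obstruction (f : Kf →+ Kf) (hf : PL f) (hf1 : f 1 = 1) (hσ : ∀ a, sK (f a) = f (sK a))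
    (b : Kf) (hb : b ∈ BB) (hb0 : b ≠ 0) : ¬ ∀ a ∈ BB, b * f a ∈ BB := by
  intro h
  obtain ⟨β, -, rfl⟩ := hb
  have hβ0 : β ≠ 0 := fun h => hb0 (by rw [h, map_zero])
  obtain ⟨j, hj⟩ := ev_far β
  have hj := hj j le_rfl
  set s := ph (sv j) with hs
  have e1 : f (s ^ 2) = s := by simpa [hf1] using hf s 1
  obtain ⟨g1, hg1, e2⟩ := h _ ⟨_, node_mem j 1 (fun i _ => by simp), rfl⟩
  obtain ⟨g2, hg2, e3⟩ := h _ ⟨_, node_mem j (sv j) (fun i hi => by
    rw [ev_sv_ne hi.symm, ev_sv_ne hi.symm]), rfl⟩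
  have e2' : ph g1 = ph β * (s + f s) := by
    rw [e2, ← e1, ← map_add, e1]
    congr 2
    simp only [map_mul, map_add, map_one, ← hs]
    ring
  have e3' : ph g2 = ph β * (s * f s + s) := by
    rw [e3, ← hf s s]
    conv_rhs => enter [2, 2]; rw [← e1]
    rw [← map_add]
    congr 2
    simp only [map_mul, map_add, map_one, ← hs]
    ring
  let v : Tp := g1 - β * sv j
  have hv : ph v = ph β * f s := by
    simp only [v, map_sub, map_mul, e2', ← hs]
    ring
  have hg2' : g2 = sv j * (v + β) := by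
    apply ph_inj
    rw [e3', map_mul, map_add, hv, ← hs]
    ring
  have k1 := mem_BT.1 hg2 j
  rw [hg2', map_mul, map_mul, ev_sv0, ev_sv1, zero_mul, one_mul, map_add, hj] at k1
  have k2 := mem_BT.1 hg1 j
  have hg1' : g1 = v + β * sv j := by simp [v]
  rw [hg1', map_add, map_add, map_mul, map_mul, ev_sv0, ev_sv1, hj, hj, mul_zero, add_zero,
    mul_one, ← k1] at k2
  obtain ⟨w, hw⟩ := ev_zero_split j v
  rw [k2, zero_add] at hw
  have hss : sK s * s = 1 := sK_sv j
  have e4 : s * sK (f s) = f s := by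
    rw [hσ, ← hf]
    congr 1
    linear_combination s * hss
  have e5 : ph β * f s = s * ph w := by rw [← hv, hw, map_mul]
  have e6 : sK (ph β) * f s = sK (ph w) := by
    have := congrArg sK e5
    rw [map_mul, map_mul] at this
    linear_combination s * this - sK (ph β) * e4 + sK (ph w) * hss
  have e7 : sK (ph β) * (s * ph w) = sK (ph w) * ph β := by
    rw [← e5, ← e6]
    ring
  have hw0 : w = 0 := by
    apply final j β w (hj 0) hβ0
    apply IsFractionRing.injective La Kf
    simp only [map_mul, ← sK_alg]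
    exact e7
  rw [hw, hw0] at k1
  exact hβ0 (by simpa using k1.symm)

theorem main : IsLocalRing (RR BB sK) ∧ IsNoetherianRing (RR BB sK) ∧ ringKrullDim (RR BB sK) = 1 ∧
    (∃ I : Ideal (RR BB sK), I ≠ ⊤ ∧ ∀ n : ℕ, ∃ g : RR BB sK →+ RR BB sK ⧸ I ^ n,
      (∀ r s, g (r ^ 2 * s) = r • g s) ∧ g 1 = 1) ∧
    (∃ φ : RR BB sK →+ RR BB sK, PL φ ∧ φ 1 ≠ 0) ∧
    ¬ ∃ ψ : RR BB sK →+ RR BB sK, PL ψ ∧ ψ 1 = 1 := by
  have hθ : sK (ph (sv 0)) ≠ ph (sv 0) := by simpa using sK_ne 1 one_ne_zero
  have := countBB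
  obtain ⟨f0, hf0, hs0, h0⟩ := exists_f0
  obtain ⟨f1, hf1, hs1, h1⟩ := exists_f1
  exact ⟨isLocal fracBB, noeth fracBB (quad_of sK_sK hθ), dim_one fracBB,
    ⟨_, span_tt_ne fracBB, exists_approx fracBB hf0 hs0 h0⟩, exists_nonzero hf1 hs1 h1,
    not_split fracBB hθ (quad_of sK_sK (sK_ne 2 two_ne_zero)) obstruction⟩

end Pool.Agent.H.MP_234613_al
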