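import Pool.Agent.H.MP_234613_al.Loc

set_option autoImplicit false

namespace Pool.Agent.H.MP_234613_al

open PowerSeries

def PL {A : Type} [CommRing A] (f : A →+ A) : Prop := ∀ r s : A, f (r ^ 2 * s) = r * f s

variable {k : Type} [Field k] {B : Subring k} {σ : k →+* k}

noncomputable def Ph (f : k →+ k) : k⟦X⟧ →+ k⟦X⟧ where
  toFun z := mk fun n => f (coeff (2 * n) z)
  map_zero' := by ext n; simp
  map_add' x y := by ext n; simp

theorem coeff_Ph (f : k →+ k) (z : k⟦X⟧) (n : ℕ) : coeff n (Ph f z) = f (coeff (2 * n) z) :=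
  coeff_mk n (fun n => f (coeff (2 * n) z))

theorem Ph_C {f : k →+ k} (hf : PL f) (c : k) (z : k⟦X⟧) : Ph f (C c ^ 2 * z) = C c * Ph f z := by
  ext n
  rw [coeff_Ph, ← map_pow, coeff_C_mul, hf, coeff_C_mul, coeff_Ph]

theorem Ph_X (f : k →+ k) (z : k⟦X⟧) : Ph f (X ^ 2 * z) = X * Ph f z := by
  ext n
  rw [coeff_Ph]
  rcases n with _ | n
  · simp [coeff_X_pow_mul']
  · rw [coeff_succ_X_mul, coeff_Ph, show 2 * (n + 1) = 2 * n + 2 by ring, coeff_X_pow_mul]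

theorem Ph_PL [CharP k 2] {f : k →+ k} (hf : PL f) : PL (Ph f) := by
  have : CharP k⟦X⟧ 2 := charP_of_injective_algebraMap (algebraMap k k⟦X⟧).injective 2
  have key : ∀ r z : k⟦X⟧, Ph f (r ^ 2 * z) = X * Ph f (sh r ^ 2 * z) + C (coeff 0 r) * Ph f z := by
    intro r z
    conv_lhs => rw [eq_sh r, CharTwo.add_sq, add_mul, map_add, Ph_C hf, mul_pow, mul_assoc, Ph_X]
  intro r z
  ext n
  induction n generalizing r with
  | zero =>
    rw [key]
    conv_rhs => rw [eq_sh r]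
    simp
  | succ n ih =>
    rw [key]
    conv_rhs => rw [eq_sh r, add_mul, mul_assoc]
    rw [map_add, map_add, coeff_succ_X_mul, coeff_succ_X_mul, ih]

theorem Ph_mem {f : k →+ k} (hf : PL f) (hB : ∀ a ∈ B, f a ∈ B) {z : k⟦X⟧} (hz : z ∈ SS B) :
    Ph f z ∈ SS B := by
  obtain ⟨b, hb, hb0, hz⟩ := hz
  refine ⟨b, hb, hb0, fun n => ?_⟩
  rw [coeff_Ph, ← hf]
  apply hB
  have : (b ^ (n + 1)) ^ 2 * coeff (2 * n) z = b * (b ^ (2 * n + 1) * coeff (2 * n) z) := by ring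
  rw [this]
  exact mul_mem hb (hz _)

theorem exists_nonzero [CharP k 2] {f : k →+ k} (hf : PL f) (hB : ∀ a ∈ B, f a ∈ B)
    (h1 : f 1 = 1) : ∃ φ : RR B σ →+ RR B σ, PL φ ∧ φ 1 ≠ 0 := by
  let φ : RR B σ →+ RR B σ :=
    { toFun := fun z => ⟨X * Ph f z, X_mul_mem (Ph_mem hf hB z.2.1)⟩
      map_zero' := Subtype.ext (by simp)
      map_add' := fun x y => Subtype.ext (by simp [mul_add]) }
  refine ⟨φ, fun r s => Subtype.ext ?_, fun h => ?_⟩
  · change X * Ph f ((r : k⟦X⟧) ^ 2 * s) = (r : k⟦X⟧) * (X * Ph f s)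
    rw [Ph_PL hf]
    ring
  · have h2 : X * Ph f 1 = 0 := congrArg Subtype.val h
    have h3 := congrArg (coeff 1) h2
    rw [coeff_succ_X_mul, coeff_Ph] at h3
    simp [h1] at h3

theorem poly_mem (hB : Frac B) (q : Polynomial k) : (q : k⟦X⟧) ∈ SS B := by
  induction q using Polynomial.induction_on' with
  | add a b ha hb => rw [Polynomial.coe_add]; exact add_mem ha hb
  | monomial n a =>
    rw [Polynomial.coe_monomial, monomial_eq_C_mul_X_pow]
    exact mul_mem (C_mem_SS hB a) (pow_mem X_mem_SS n)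

theorem approx (hB : Frac B) (n : ℕ) (w : k⟦X⟧) (hw : σ (constantCoeff w) = constantCoeff w) :
    ∃ r : RR B σ, ∀ m < n + 1, coeff m (r : k⟦X⟧) = coeff m w := by
  have h : ∀ m < n + 1, coeff m ((trunc (n + 1) w : Polynomial k) : k⟦X⟧) = coeff m w := by
    intro m hm
    rw [Polynomial.coeff_coe, coeff_trunc, if_pos hm]
  refine ⟨⟨(trunc (n + 1) w : Polynomial k), poly_mem hB _, ?_⟩, h⟩
  rw [← coeff_zero_eq_constantCoeff_apply, h 0 (Nat.succ_pos n), coeff_zero_eq_constantCoeff_apply,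
    hw]

theorem exists_approx [CharP k 2] (hB : Frac B) {f : k →+ k} (hf : PL f)
    (hσ : ∀ a, σ (f a) = f (σ a)) (h1 : f 1 = 1) (n : ℕ) :
    ∃ g : RR B σ →+ RR B σ ⧸ Ideal.span {tt B σ} ^ n,
      (∀ r s, g (r ^ 2 * s) = r • g s) ∧ g 1 = 1 := by
  have h0 : ∀ z : RR B σ, σ (constantCoeff (Ph f z)) = constantCoeff (Ph f z) := by
    intro z
    rw [← coeff_zero_eq_constantCoeff_apply, coeff_Ph, hσ, mul_zero,
      coeff_zero_eq_constantCoeff_apply, z.2.2]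
  choose h hh using fun z : RR B σ => approx hB n (Ph f z) (h0 z)
  have key : ∀ x y : RR B σ, (∀ m < n + 1, coeff m (x : k⟦X⟧) = coeff m (y : k⟦X⟧)) →
      Ideal.Quotient.mk (Ideal.span {tt B σ} ^ n) x = Ideal.Quotient.mk _ y := by
    intro x y hxy
    rw [Ideal.Quotient.eq, Ideal.span_singleton_pow, Ideal.mem_span_singleton]
    apply dvd_of_coeff
    intro m hm
    rw [AddSubgroupClass.coe_sub, map_sub, hxy m hm, sub_self]
  refine ⟨AddMonoidHom.mk' (fun z => Ideal.Quotient.mk _ (h z)) ?_, ?_, ?_⟩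
  · intro x y
    rw [← map_add]
    apply key
    intro m hm
    rw [hh _ m hm, Subring.coe_add, Subring.coe_add, map_add, map_add, map_add, hh _ m hm,
      hh _ m hm]
  · intro r s
    change Ideal.Quotient.mk _ (h (r ^ 2 * s)) = Ideal.Quotient.mk _ (r * h s)
    apply key
    intro m hm
    rw [hh _ m hm, Subring.coe_mul, Subring.coe_mul, Subring.coe_pow, Ph_PL hf, coeff_mul,
      coeff_mul]
    refine Finset.sum_congr rfl fun x hx => ?_
    have e : x.1 + x.2 = m := by simpa using hx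
    rw [hh s x.2 (by omega)]
  · change Ideal.Quotient.mk _ (h 1) = Ideal.Quotient.mk _ 1
    apply key
    intro m hm
    rw [hh _ m hm, coeff_Ph, Subring.coe_one, coeff_one, coeff_one]
    by_cases h : m = 0
    · simp [h, h1]
    · simp [h]

theorem extend_S (hB : Frac B) {θ : k} (hθ : σ θ ≠ θ) {ψ : RR B σ →+ RR B σ} (hψ : PL ψ) :
    ∃ G : SS B →+ SS B, PL G ∧ ∀ z : RR B σ, (G ⟨z, z.2.1⟩ : k⟦X⟧) = ψ z := by
  let e : SS B →+ RR B σ :=
    { toFun := fun z => ⟨X * (X * (z : k⟦X⟧)), X_mul_mem (mul_mem X_mem_SS z.2)⟩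
      map_zero' := Subtype.ext (by simp)
      map_add' := fun x y => Subtype.ext (by simp [mul_add]) }
  have h1 : ∀ c z : SS B, (ψ (e (c ^ 2 * z)) : k⟦X⟧) = (c : k⟦X⟧) * ψ (e z) := by
    intro c z
    have h2 := hψ (tt B σ) (e (c ^ 2 * z))
    have h3 := hψ ⟨X * (c : k⟦X⟧), X_mul_mem c.2⟩ (e z)
    have h4 : tt B σ ^ 2 * e (c ^ 2 * z) = (⟨X * (c : k⟦X⟧), X_mul_mem c.2⟩ : RR B σ) ^ 2 * e z := by
      apply Subtype.ext
      change X ^ 2 * (X * (X * ((c : k⟦X⟧) ^ 2 * (z : k⟦X⟧)))) = (X * (c : k⟦X⟧)) ^ 2 * (X * (X * (z : k⟦X⟧)))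
      ring
    rw [h4, h3] at h2
    have h5 : X * (c : k⟦X⟧) * (ψ (e z) : k⟦X⟧) = X * (ψ (e (c ^ 2 * z)) : k⟦X⟧) := congrArg Subtype.val h2
    rw [mul_assoc] at h5
    exact (mul_left_cancel₀ X_ne_zero h5).symm
  have h2 : ∀ z : SS B, constantCoeff (ψ (e z) : k⟦X⟧) = 0 := by
    intro z
    have h3 := (ψ (e (⟨C θ, C_mem_SS hB θ⟩ ^ 2 * z))).2.2
    rw [h1, map_mul, map_mul, (ψ (e z)).2.2] at h3
    simp only [constantCoeff_C] at h3
    by_contra h
    exact hθ (mul_right_cancel₀ h h3)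
  have h3 : ∀ z : SS B, X * sh (ψ (e z) : k⟦X⟧) = (ψ (e z) : k⟦X⟧) := by
    intro z
    conv_rhs => rw [eq_sh (ψ (e z) : k⟦X⟧), coeff_zero_eq_constantCoeff_apply, h2]
    simp
  refine ⟨AddMonoidHom.mk' (fun z => ⟨sh (ψ (e z) : k⟦X⟧), sh_mem (ψ (e z)).2.1⟩) ?_, ?_, ?_⟩
  · intro x y
    apply Subtype.ext
    apply mul_left_cancel₀ (X_ne_zero (R := k))
    change X * sh (ψ (e (x + y)) : k⟦X⟧) = X * (sh (ψ (e x) : k⟦X⟧) + sh (ψ (e y) : k⟦X⟧))
    rw [mul_add, h3, h3, h3, map_add, map_add]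
    rfl
  · intro c z
    apply Subtype.ext
    apply mul_left_cancel₀ (X_ne_zero (R := k))
    change X * sh (ψ (e (c ^ 2 * z)) : k⟦X⟧) = X * ((c : k⟦X⟧) * sh (ψ (e z) : k⟦X⟧))
    rw [h3, h1, mul_left_comm, h3]
  · intro z
    apply mul_left_cancel₀ (X_ne_zero (R := k))
    change X * sh (ψ (e ⟨z, z.2.1⟩) : k⟦X⟧) = _
    have : e ⟨z, z.2.1⟩ = tt B σ ^ 2 * z := by
      apply Subtype.ext
      change X * (X * (z : k⟦X⟧)) = X ^ 2 * (z : k⟦X⟧)
      ring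
    rw [h3, this, hψ]
    rfl

end Pool.Agent.H.MP_234613_al
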