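import Mathlib

set_option autoImplicit false

namespace Pool.Agent.H.MP_234613_al

open PowerSeries

theorem pure_of_approx {R : Type*} [CommRing R] [IsNoetherianRing R] [IsLocalRing R]
    (I : Ideal R) (hI : I ≠ ⊤) {N : Type*} [AddCommGroup N] [Module R N] (x : N)
    (h : ∀ n : ℕ, ∃ g : N →ₗ[R] R ⧸ I ^ n, g x = 1)
    (M : Type*) [AddCommGroup M] [Module R M] :
    Function.Injective (fun m : M => m ⊗ₜ[R] x) := by
  have key : ∀ m : M, m ⊗ₜ[R] x = 0 → m = 0 := by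
    intro m hm
    let P : Submodule R M := Submodule.span R {m}
    have hP : P.FG := Submodule.fg_span_singleton m
    have hmP : m ∈ P := Submodule.mem_span_singleton_self m
    obtain ⟨Q, hPQ, hQ, h0⟩ := TensorProduct.eq_zero_of_fg_of_subtype_eq_zero hP
      (t := (⟨m, hmP⟩ : P) ⊗ₜ[R] x) (by simpa using hm)
    have : Module.Finite R Q := Module.Finite.iff_fg.2 hQ
    have h1 : (⟨m, hPQ hmP⟩ : Q) ∈ (⨅ n : ℕ, I ^ n • ⊤ : Submodule R Q) := by
      rw [Submodule.mem_iInf]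
      intro n
      obtain ⟨g, hg⟩ := h n
      have h2 := congrArg (fun y => TensorProduct.tensorQuotEquivQuotSMul Q (I ^ n)
        (LinearMap.lTensor Q g y)) h0
      simp only [LinearMap.rTensor_tmul, LinearMap.lTensor_tmul, hg, map_zero] at h2
      rw [← map_one (Ideal.Quotient.mk (I ^ n)), TensorProduct.tensorQuotEquivQuotSMul_tmul_mk,
        one_smul, Submodule.Quotient.mk_eq_zero] at h2
      exact h2
    rw [Ideal.iInf_pow_smul_eq_bot_of_isLocalRing I hI] at h1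
    exact congrArg Subtype.val h1
  intro a b hab
  have : (a - b) ⊗ₜ[R] x = 0 := by
    rw [TensorProduct.sub_tmul]
    exact sub_eq_zero.2 hab
  exact sub_eq_zero.1 (key _ this)

variable {k : Type} [Field k]

def Bd (B : Subring k) (b : k) (z : k⟦X⟧) : Prop := ∀ n, b ^ (n + 1) * coeff n z ∈ B

variable {B : Subring k}

theorem Bd.mono {b c : k} {z : k⟦X⟧} (h : Bd B b z) (hc : c ∈ B) : Bd B (b * c) z := by
  intro n
  have : (b * c) ^ (n + 1) * coeff n z = c ^ (n + 1) * (b ^ (n + 1) * coeff n z) := by ring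
  rw [this]
  exact mul_mem (pow_mem hc _) (h n)

theorem Bd.mul {b : k} {z w : k⟦X⟧} (hb : b ∈ B) (h : Bd B b z) (h' : Bd B b w) :
    Bd B (b * b) (z * w) := by
  intro n
  rw [coeff_mul, Finset.mul_sum]
  refine sum_mem fun x hx => ?_
  have e : x.1 + x.2 = n := by simpa using hx
  have : (b * b) ^ (n + 1) * (coeff x.1 z * coeff x.2 w) =
      b ^ n * ((b ^ (x.1 + 1) * coeff x.1 z) * (b ^ (x.2 + 1) * coeff x.2 w)) := by
    rw [← e]; ring
  rw [this]
  exact mul_mem (pow_mem hb _) (mul_mem (h _) (h' _))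

variable (B) in
def SS : Subring k⟦X⟧ where
  carrier := {z | ∃ b ∈ B, b ≠ 0 ∧ Bd B b z}
  mul_mem' := by
    rintro z w ⟨b, hb, hb0, hz⟩ ⟨c, hc, hc0, hw⟩
    refine ⟨(b * c) * (b * c), mul_mem (mul_mem hb hc) (mul_mem hb hc), by positivity, ?_⟩
    exact Bd.mul (mul_mem hb hc) (hz.mono hc) (mul_comm c b ▸ hw.mono hb)
  one_mem' := ⟨1, one_mem B, one_ne_zero, fun n => by
    rw [one_pow, one_mul, coeff_one]; split_ifs; exacts [one_mem B, zero_mem B]⟩
  add_mem' := by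
    rintro z w ⟨b, hb, hb0, hz⟩ ⟨c, hc, hc0, hw⟩
    refine ⟨b * c, mul_mem hb hc, mul_ne_zero hb0 hc0, fun n => ?_⟩
    rw [map_add, mul_add]
    exact add_mem (hz.mono hc n) ((mul_comm c b ▸ hw.mono hb) n)
  zero_mem' := ⟨1, one_mem B, one_ne_zero, fun n => by simp⟩
  neg_mem' := by
    rintro z ⟨b, hb, hb0, hz⟩
    refine ⟨b, hb, hb0, fun n => ?_⟩
    rw [map_neg, mul_neg]
    exact neg_mem (hz n)

theorem mem_SS {z : k⟦X⟧} : z ∈ SS B ↔ ∃ b ∈ B, b ≠ 0 ∧ Bd B b z := Iff.rfl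

theorem mem_SS_of_coeff {z : k⟦X⟧} (h : ∀ n, coeff n z ∈ B) : z ∈ SS B :=
  ⟨1, one_mem B, one_ne_zero, fun n => by simpa using h n⟩

theorem X_mem_SS : (X : k⟦X⟧) ∈ SS B := mem_SS_of_coeff fun n => by
  rw [coeff_X]; split_ifs; exacts [one_mem B, zero_mem B]

def Frac (B : Subring k) : Prop := ∀ a : k, ∃ b ∈ B, b ≠ 0 ∧ b * a ∈ B

theorem C_mem_SS (hB : Frac B) (a : k) : (C a : k⟦X⟧) ∈ SS B := by
  obtain ⟨b, hb, hb0, h⟩ := hB a
  refine ⟨b, hb, hb0, fun n => ?_⟩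
  rw [coeff_C]
  split_ifs with h0
  · subst h0; simpa using h
  · simp

noncomputable def sh (z : k⟦X⟧) : k⟦X⟧ := mk fun n => coeff (n + 1) z

theorem sh_mem {z : k⟦X⟧} (h : z ∈ SS B) : sh z ∈ SS B := by
  obtain ⟨b, hb, hb0, hz⟩ := h
  refine ⟨b * b, mul_mem hb hb, mul_ne_zero hb0 hb0, fun n => ?_⟩
  have : (b * b) ^ (n + 1) * coeff n (sh z) = b ^ n * (b ^ (n + 1 + 1) * coeff (n + 1) z) := by
    rw [sh, coeff_mk]; ring
  rw [this]
  exact mul_mem (pow_mem hb _) (hz _)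

theorem eq_sh (z : k⟦X⟧) : z = X * sh z + C (coeff 0 z) := by
  rw [coeff_zero_eq_constantCoeff_apply]
  exact eq_X_mul_shift_add_const z

theorem mem_of_X_mul {z : k⟦X⟧} (h : X * z ∈ SS B) : z ∈ SS B := by
  have : sh (X * z) = z := by
    ext n; rw [sh, coeff_mk, coeff_succ_X_mul]
  rw [← this]
  exact sh_mem h

theorem mem_of_X_pow_mul {z : k⟦X⟧} (n : ℕ) (h : X ^ n * z ∈ SS B) : z ∈ SS B := by
  induction n with
  | zero => simpa using h
  | succ n ih =>
    apply ih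
    apply mem_of_X_mul
    rwa [← mul_assoc, ← pow_succ']

theorem inv_mem_SS (hB : Frac B) {z : k⟦X⟧} (h : z ∈ SS B) : z⁻¹ ∈ SS B := by
  obtain ⟨b, hb, hb0, hz⟩ := h
  obtain ⟨c, hc, hc0, hcz⟩ := hB (constantCoeff z)⁻¹
  refine ⟨b * b * c, mul_mem (mul_mem hb hb) hc, by positivity, fun n => ?_⟩
  induction n using Nat.strong_induction_on with
  | _ n ih =>
    rw [coeff_inv]
    split_ifs with h0
    · subst h0
      have : (b * b * c) ^ (0 + 1) * (constantCoeff z)⁻¹ = b * b * (c * (constantCoeff z)⁻¹) := by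
        ring
      rw [this]
      exact mul_mem (mul_mem hb hb) hcz
    · rw [neg_mul, mul_neg, Finset.mul_sum, Finset.mul_sum]
      refine neg_mem (sum_mem fun x hx => ?_)
      have e : x.1 + x.2 = n := by simpa using hx
      split_ifs with h1
      · obtain ⟨i, hi⟩ : ∃ i, x.1 = i + 1 := ⟨x.1 - 1, by omega⟩
        have : (b * b * c) ^ (n + 1) * ((constantCoeff z)⁻¹ * (coeff x.1 z * coeff x.2 z⁻¹)) =
            (b * c) ^ i * ((c * (constantCoeff z)⁻¹) * ((b ^ (x.1 + 1) * coeff x.1 z) *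
              ((b * b * c) ^ (x.2 + 1) * coeff x.2 z⁻¹))) := by
          rw [← e, hi]; ring
        rw [this]
        exact mul_mem (pow_mem (mul_mem hb hc) _) (mul_mem hcz (mul_mem (hz _) (ih _ h1)))
      · simp

end Pool.Agent.H.MP_234613_al
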